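import Pool.Agent.TH612.GS.Stm3
import Pool.Agent.TH347.GS.A4

set_option autoImplicit false

/-! Project GF, A5: the mean square form of CONT for fixed `α` (after helper347, TH347/GS/A4;
written by helper113). -/

namespace Pool.Agent.TH113.GF

open Complex Filter Topology MeasureTheory Set
open Pool.Agent.TH612.CF Pool.Agent.TH612.GS Pool.Agent.TH347.GS
open scoped ENNReal

noncomputable section

variable {k : ℕ}

lemma mP_univ' (k : ℕ) {T : ℝ} (hT : 0 ≤ T) :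
    mP (Fin k) T univ = ENNReal.ofReal (T ^ k) := by
  unfold mP
  rw [Measure.pi_univ]
  simp only [Measure.restrict_apply MeasurableSet.univ, univ_inter, Real.volume_Icc, sub_zero]
  rw [Finset.prod_const, Finset.card_univ, Fintype.card_fin, ENNReal.ofReal_pow hT]

lemma gab_cont (α : Fin k → ℝ) : Continuous (gab α) := by
  refine continuous_pi fun i => ?_
  cases i with
  | inl j => exact continuous_const
  | inr j => exact continuous_apply j

lemma comp_cont {X Y Z : Type*} [TopologicalSpace X] [TopologicalSpace Y] [TopologicalSpace Z]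
    {f : X → ℝ → Z} (hf : Continuous fun q : X × ℝ => f q.1 q.2) {g : Y → X} (hg : Continuous g) :
    Continuous fun q : Y × ℝ => f (g q.1) q.2 :=
  hf.comp ((hg.comp continuous_fst).prodMk continuous_snd)

lemma Gyg_cont (M : ℕ) (α : Fin k → ℝ) :
    Continuous fun q : (Fin k → ℝ) × ℝ => Gy M (gab α q.1) q.2 :=
  comp_cont (f := Gy (k := k) M) (Gy_cont M) (gab_cont α)

theorem t_A5 (hC : S_CONT) (hG : S_GL3) : Pool.Agent.TH612.GS.S_A5 := by
  intro k α ψ hψ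
  obtain ⟨C, M₀, hC0, hM₀, hC⟩ := hC k ψ hψ
  obtain ⟨C', hC'0, hG⟩ := hG k α
  obtain ⟨W, hW⟩ : ∃ W : ℝ≥0∞, W = ∫⁻ y : ℝ, ENNReal.ofReal (wy y) := ⟨_, rfl⟩
  have hWt : W ≠ ⊤ := by
    rw [hW]
    exact wy_int
  refine ⟨2 * C ^ 2 * (1 + W.toReal ^ 2 * C'), M₀, by positivity, hM₀, ?_⟩
  intro T M hM hT hMT
  have hM1 : 1 ≤ M := by omega
  have hMp : (0 : ℝ) < M := by exact_mod_cast hM1
  have hT0 : (0 : ℝ) ≤ T := by linarith
  have hcont := Gyg_cont M α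
  have key : ∀ γ : Fin k ⊕ Fin k → ℝ, ENNReal.ofReal (‖SP ψ M γ - GM M γ 0‖ ^ 2) ≤
      ENNReal.ofReal (2 * C ^ 2 * (M : ℝ) ^ (-(1 / 8) : ℝ)) *
        (1 + W * ∫⁻ y : ℝ, ENNReal.ofReal (wy y) * ENNReal.ofReal (‖Gy M γ y‖ ^ 2)) := by
    intro γ
    have h1 := hC M γ hM
    have h1' : ‖SP ψ M γ - GM M γ 0‖ ≤ C * (M : ℝ) ^ (-(1 / 16) : ℝ) *
        (1 + ∫ y : ℝ, wy y * ‖Gy M γ y‖) := h1
    obtain ⟨J, hJ⟩ : ∃ J : ℝ, J = ∫ y : ℝ, wy y * ‖Gy M γ y‖ := ⟨_, rfl⟩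
    rw [← hJ] at h1'
    have hJ0 : 0 ≤ J := by
      rw [hJ]
      exact integral_nonneg fun y => mul_nonneg (wy_nonneg y) (norm_nonneg _)
    have h2 : ‖SP ψ M γ - GM M γ 0‖ ^ 2 ≤
        2 * C ^ 2 * (M : ℝ) ^ (-(1 / 8) : ℝ) * (1 + J ^ 2) := by
      have h3 := pow_le_pow_left₀ (norm_nonneg _) h1' 2
      have h4 : ((M : ℝ) ^ (-(1 / 16) : ℝ)) ^ 2 = (M : ℝ) ^ (-(1 / 8) : ℝ) := by
        rw [← Real.rpow_natCast, ← Real.rpow_mul hMp.le]
        norm_num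
      have h6 : 0 ≤ C ^ 2 * (M : ℝ) ^ (-(1 / 8) : ℝ) := by positivity
      calc ‖SP ψ M γ - GM M γ 0‖ ^ 2 ≤ (C * (M : ℝ) ^ (-(1 / 16) : ℝ) * (1 + J)) ^ 2 := h3
        _ = C ^ 2 * ((M : ℝ) ^ (-(1 / 16) : ℝ)) ^ 2 * (1 + J) ^ 2 := by ring
        _ = C ^ 2 * (M : ℝ) ^ (-(1 / 8) : ℝ) * (1 + J) ^ 2 := by rw [h4]
        _ ≤ C ^ 2 * (M : ℝ) ^ (-(1 / 8) : ℝ) * (2 * (1 + J ^ 2)) := by
            apply mul_le_mul_of_nonneg_left _ h6
            nlinarith [sq_nonneg (1 - J)]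
        _ = _ := by ring
    have hmeas : Measurable fun y : ℝ => ‖Gy M γ y‖ :=
      ((Gy_cont M).comp (Continuous.prodMk_right γ)).norm.measurable
    have h5 := cs (fun y => ‖Gy M γ y‖) hmeas (fun y => norm_nonneg _)
    rw [← hJ, ← hW] at h5
    calc ENNReal.ofReal (‖SP ψ M γ - GM M γ 0‖ ^ 2) ≤
        ENNReal.ofReal (2 * C ^ 2 * (M : ℝ) ^ (-(1 / 8) : ℝ) * (1 + J ^ 2)) :=
          ENNReal.ofReal_le_ofReal h2
      _ = ENNReal.ofReal (2 * C ^ 2 * (M : ℝ) ^ (-(1 / 8) : ℝ)) * ENNReal.ofReal (1 + J ^ 2) :=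
          ENNReal.ofReal_mul (by positivity)
      _ ≤ _ := by
          refine mul_le_mul' le_rfl ?_
          rw [ENNReal.ofReal_add zero_le_one (sq_nonneg J), ENNReal.ofReal_one]
          exact add_le_add le_rfl h5
  have hF : ∫⁻ β, (∫⁻ y : ℝ, ENNReal.ofReal (wy y) * ENNReal.ofReal (‖Gy M (gab α β) y‖ ^ 2))
      ∂(mP (Fin k) T) ≤ W * ENNReal.ofReal (C' * T ^ k) := by
    rw [lintegral_lintegral_swap]
    · calc ∫⁻ y : ℝ, ∫⁻ β, ENNReal.ofReal (wy y) * ENNReal.ofReal (‖Gy M (gab α β) y‖ ^ 2)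
            ∂(mP (Fin k) T)
          ≤ ∫⁻ y, ENNReal.ofReal (wy y) * ENNReal.ofReal (C' * T ^ k) := by
            refine lintegral_mono fun y => ?_
            rw [lintegral_const_mul' _ _ ENNReal.ofReal_ne_top]
            refine mul_le_mul' le_rfl ?_
            have h7 := hG T M (y / (Real.log M / 2)) hM1 hMT hT
            refine le_trans (le_of_eq ?_) h7
            refine lintegral_congr fun β => ?_
            unfold Gy
            push_cast
            rfl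
        _ = W * ENNReal.ofReal (C' * T ^ k) := by
            rw [lintegral_mul_const' _ _ ENNReal.ofReal_ne_top, ← hW]
    · refine Measurable.aemeasurable ?_
      exact ((wy_cont.comp continuous_snd).measurable.ennreal_ofReal).mul
        ((hcont.norm.pow 2).measurable.ennreal_ofReal)
  calc ∫⁻ β, ENNReal.ofReal (‖SP ψ M (gab α β) - GM M (gab α β) 0‖ ^ 2) ∂(mP (Fin k) T) ≤
      ∫⁻ β, ENNReal.ofReal (2 * C ^ 2 * (M : ℝ) ^ (-(1 / 8) : ℝ)) *
        (1 + W * ∫⁻ y : ℝ, ENNReal.ofReal (wy y) * ENNReal.ofReal (‖Gy M (gab α β) y‖ ^ 2))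
          ∂(mP (Fin k) T) := lintegral_mono fun β => key (gab α β)
    _ = ENNReal.ofReal (2 * C ^ 2 * (M : ℝ) ^ (-(1 / 8) : ℝ)) *
        (mP (Fin k) T univ + W * ∫⁻ β, (∫⁻ y : ℝ, ENNReal.ofReal (wy y) *
          ENNReal.ofReal (‖Gy M (gab α β) y‖ ^ 2)) ∂(mP (Fin k) T)) := by
        rw [lintegral_const_mul' _ _ ENNReal.ofReal_ne_top, lintegral_add_left measurable_const,
          lintegral_const_mul' _ _ hWt, lintegral_const, one_mul]
    _ ≤ ENNReal.ofReal (2 * C ^ 2 * (M : ℝ) ^ (-(1 / 8) : ℝ)) *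
        (ENNReal.ofReal (T ^ k) + W * (W * ENNReal.ofReal (C' * T ^ k))) := by
        rw [mP_univ' k hT0]
        exact mul_le_mul' le_rfl (add_le_add le_rfl (mul_le_mul' le_rfl hF))
    _ = ENNReal.ofReal (2 * C ^ 2 * (1 + W.toReal ^ 2 * C') * T ^ k *
        (M : ℝ) ^ (-(1 / 8) : ℝ)) := by
        have hw0 : (0 : ℝ) ≤ W.toReal := ENNReal.toReal_nonneg
        rw [← ENNReal.ofReal_toReal hWt, ← ENNReal.ofReal_mul hw0, ← ENNReal.ofReal_mul hw0,
          ← ENNReal.ofReal_add (by positivity) (by positivity),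
          ← ENNReal.ofReal_mul (by positivity), ENNReal.toReal_ofReal hw0]
        congr 1
        ring

end

end Pool.Agent.TH113.GF
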